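import Mathlib
import Pool.Agent.V11212.PM.Cone

/-!
# Poincaré duality CDGAs of zero signature which are not semi-trivial mapping cones

For `k ≥ 1` the algebra `ℚ ⊕ ℚ² ⊕ ℚ`, in degrees `0`, `2k` and `4k`, with zero differential and
with middle form `x² - 2 y²`, satisfies Poincaré duality and has signature zero, but it is not
quasi-isomorphic to a semi-trivial mapping cone, since the form has no isotropic vector over `ℚ`.
-/

set_option autoImplicit false

namespace Pool.Agent.Results.MP_43ef35_gt.AnisotropicForm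

open Pool.Agent.V11212.PM

/-- the underlying space of the algebra -/
@[ext] structure HH where
  /-- degree zero -/
  a : ℚ
  /-- middle degree -/
  x : ℚ
  /-- middle degree -/
  y : ℚ
  /-- top degree -/
  w : ℚ

namespace HH

instance : Zero HH := ⟨⟨0, 0, 0, 0⟩⟩
instance : One HH := ⟨⟨1, 0, 0, 0⟩⟩
instance : Add HH := ⟨fun u v => ⟨u.a + v.a, u.x + v.x, u.y + v.y, u.w + v.w⟩⟩
instance : Neg HH := ⟨fun u => ⟨-u.a, -u.x, -u.y, -u.w⟩⟩
instance : Mul HH := ⟨fun u v => ⟨u.a * v.a, u.a * v.x + u.x * v.a, u.a * v.y + u.y * v.a,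
  u.a * v.w + u.w * v.a + u.x * v.x - 2 * (u.y * v.y)⟩⟩

@[simp] lemma zero_a : (0 : HH).a = 0 := rfl
@[simp] lemma zero_x : (0 : HH).x = 0 := rfl
@[simp] lemma zero_y : (0 : HH).y = 0 := rfl
@[simp] lemma zero_w : (0 : HH).w = 0 := rfl
@[simp] lemma one_a : (1 : HH).a = 1 := rfl
@[simp] lemma one_x : (1 : HH).x = 0 := rfl
@[simp] lemma one_y : (1 : HH).y = 0 := rfl
@[simp] lemma one_w : (1 : HH).w = 0 := rfl
@[simp] lemma add_a (u v : HH) : (u + v).a = u.a + v.a := rfl
@[simp] lemma add_x (u v : HH) : (u + v).x = u.x + v.x := rfl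
@[simp] lemma add_y (u v : HH) : (u + v).y = u.y + v.y := rfl
@[simp] lemma add_w (u v : HH) : (u + v).w = u.w + v.w := rfl
@[simp] lemma neg_a (u : HH) : (-u).a = -u.a := rfl
@[simp] lemma neg_x (u : HH) : (-u).x = -u.x := rfl
@[simp] lemma neg_y (u : HH) : (-u).y = -u.y := rfl
@[simp] lemma neg_w (u : HH) : (-u).w = -u.w := rfl
@[simp] lemma mul_a (u v : HH) : (u * v).a = u.a * v.a := rfl
@[simp] lemma mul_x (u v : HH) : (u * v).x = u.a * v.x + u.x * v.a := rfl
@[simp] lemma mul_y (u v : HH) : (u * v).y = u.a * v.y + u.y * v.a := rfl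
@[simp] lemma mul_w (u v : HH) : (u * v).w =
  u.a * v.w + u.w * v.a + u.x * v.x - 2 * (u.y * v.y) := rfl

instance : CommRing HH where
  add_assoc u v w := by ext <;> simp <;> ring
  zero_add u := by ext <;> simp
  add_zero u := by ext <;> simp
  add_comm u v := by ext <;> simp <;> ring
  neg_add_cancel u := by ext <;> simp
  mul_assoc u v w := by ext <;> simp <;> ring
  one_mul u := by ext <;> simp
  mul_one u := by ext <;> simp
  mul_comm u v := by ext <;> simp <;> ring
  left_distrib u v w := by ext <;> simp <;> ring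
  right_distrib u v w := by ext <;> simp <;> ring
  zero_mul u := by ext <;> simp
  mul_zero u := by ext <;> simp
  nsmul := nsmulRec
  zsmul := zsmulRec

@[simp] lemma sub_a (u v : HH) : (u - v).a = u.a - v.a := by
  rw [sub_eq_add_neg, add_a, neg_a, sub_eq_add_neg]
@[simp] lemma sub_x (u v : HH) : (u - v).x = u.x - v.x := by
  rw [sub_eq_add_neg, add_x, neg_x, sub_eq_add_neg]
@[simp] lemma sub_y (u v : HH) : (u - v).y = u.y - v.y := by
  rw [sub_eq_add_neg, add_y, neg_y, sub_eq_add_neg]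
@[simp] lemma sub_w (u v : HH) : (u - v).w = u.w - v.w := by
  rw [sub_eq_add_neg, add_w, neg_w, sub_eq_add_neg]

/-- the scalars -/
def scal : ℚ →+* HH where
  toFun c := ⟨c, 0, 0, 0⟩
  map_one' := rfl
  map_zero' := rfl
  map_add' c e := by ext <;> simp
  map_mul' c e := by ext <;> simp

instance : Algebra ℚ HH := scal.toAlgebra

lemma smul_def' (c : ℚ) (u : HH) : c • u = scal c * u := rfl

@[simp] lemma smul_a (c : ℚ) (u : HH) : (c • u).a = c * u.a := rfl
@[simp] lemma smul_x (c : ℚ) (u : HH) : (c • u).x = c * u.x := by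
  rw [smul_def', mul_x]; simp [scal]
@[simp] lemma smul_y (c : ℚ) (u : HH) : (c • u).y = c * u.y := by
  rw [smul_def', mul_y]; simp [scal]
@[simp] lemma smul_w (c : ℚ) (u : HH) : (c • u).w = c * u.w := by
  rw [smul_def', mul_w]; simp [scal]

end HH

/-- the grading -/
def gr (k : ℕ) (i : ℤ) : Submodule ℚ HH where
  carrier := {u | (i ≠ 0 → u.a = 0) ∧ (i ≠ 2 * k → u.x = 0 ∧ u.y = 0) ∧ (i ≠ 4 * k → u.w = 0)}
  add_mem' := by
    rintro u v ⟨h1, h2, h3⟩ ⟨g1, g2, g3⟩
    refine ⟨fun h => ?_, fun h => ⟨?_, ?_⟩, fun h => ?_⟩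
    · simp [h1 h, g1 h]
    · simp [(h2 h).1, (g2 h).1]
    · simp [(h2 h).2, (g2 h).2]
    · simp [h3 h, g3 h]
  zero_mem' := ⟨fun _ => rfl, fun _ => ⟨rfl, rfl⟩, fun _ => rfl⟩
  smul_mem' := by
    rintro c u ⟨h1, h2, h3⟩
    refine ⟨fun h => ?_, fun h => ⟨?_, ?_⟩, fun h => ?_⟩
    · simp [h1 h]
    · simp [(h2 h).1]
    · simp [(h2 h).2]
    · simp [h3 h]

lemma mem_gr {k : ℕ} {i : ℤ} {u : HH} : u ∈ gr k i ↔
    (i ≠ 0 → u.a = 0) ∧ (i ≠ 2 * k → u.x = 0 ∧ u.y = 0) ∧ (i ≠ 4 * k → u.w = 0) := Iff.rfl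

/-- the projections -/
def prj (k : ℕ) (i : ℤ) : HH →ₗ[ℚ] HH where
  toFun u := ⟨if i = 0 then u.a else 0, if i = 2 * k then u.x else 0,
    if i = 2 * k then u.y else 0, if i = 4 * k then u.w else 0⟩
  map_add' u v := by
    ext <;> simp <;> split_ifs <;> simp
  map_smul' c u := by
    ext <;> simp

lemma prj_of_mem {k : ℕ} {i : ℤ} {u : HH} (hu : u ∈ gr k i) : prj k i u = u := by
  obtain ⟨h1, h2, h3⟩ := hu
  ext
  · change (if i = 0 then u.a else 0) = u.a
    split_ifs with h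
    · rfl
    · exact (h1 h).symm
  · change (if i = 2 * k then u.x else 0) = u.x
    split_ifs with h
    · rfl
    · exact (h2 h).1.symm
  · change (if i = 2 * k then u.y else 0) = u.y
    split_ifs with h
    · rfl
    · exact (h2 h).2.symm
  · change (if i = 4 * k then u.w else 0) = u.w
    split_ifs with h
    · rfl
    · exact (h3 h).symm

lemma prj_of_ne {k : ℕ} {i j : ℤ} (hij : j ≠ i) {u : HH} (hu : u ∈ gr k j) :
    prj k i u = 0 := by
  obtain ⟨h1, h2, h3⟩ := hu
  ext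
  · change (if i = 0 then u.a else 0) = 0
    split_ifs with h
    · exact h1 (by rw [← h]; exact hij)
    · rfl
  · change (if i = 2 * k then u.x else 0) = 0
    split_ifs with h
    · exact (h2 (by rw [← h]; exact hij)).1
    · rfl
  · change (if i = 2 * k then u.y else 0) = 0
    split_ifs with h
    · exact (h2 (by rw [← h]; exact hij)).2
    · rfl
  · change (if i = 4 * k then u.w else 0) = 0
    split_ifs with h
    · exact h3 (by rw [← h]; exact hij)
    · rfl

lemma internal_gr {k : ℕ} (hk : 1 ≤ k) : DirectSum.IsInternal (gr k) := by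
  have key : ∀ (i : ℤ) (z : DirectSum ℤ fun i => gr k i),
      prj k i (DirectSum.coeLinearMap (gr k) z) = (z i : HH) := by
    intro i z
    induction z using DirectSum.induction_on with
    | zero => simp
    | of j u =>
      have e : DirectSum.coeLinearMap (gr k) (DirectSum.of (fun i => gr k i) j u) = (u : HH) :=
        DirectSum.coeLinearMap_lof (gr k) j u
      rw [e]
      by_cases h : j = i
      · subst h
        rw [prj_of_mem u.2, DirectSum.of_eq_same]
      · rw [prj_of_ne h u.2, DirectSum.of_eq_of_ne _ _ _ (Ne.symm h)]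
        rfl
    | add z w hz hw =>
      rw [map_add, map_add, hz, hw]
      rfl
  constructor
  · intro z w hzw
    ext i : 2
    rw [← key i z, ← key i w]
    exact congrArg (prj k i) hzw
  · intro u
    have h0 : (⟨u.a, 0, 0, 0⟩ : HH) ∈ gr k 0 :=
      ⟨fun h => absurd rfl h, fun _ => ⟨rfl, rfl⟩, fun _ => rfl⟩
    have h1 : (⟨0, u.x, u.y, 0⟩ : HH) ∈ gr k (2 * k) :=
      ⟨fun _ => rfl, fun h => absurd rfl h, fun _ => rfl⟩
    have h2 : (⟨0, 0, 0, u.w⟩ : HH) ∈ gr k (4 * k) :=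
      ⟨fun _ => rfl, fun _ => ⟨rfl, rfl⟩, fun h => absurd rfl h⟩
    refine ⟨DirectSum.lof ℚ ℤ (fun i => gr k i) 0 ⟨_, h0⟩ +
      DirectSum.lof ℚ ℤ (fun i => gr k i) (2 * k) ⟨_, h1⟩ +
      DirectSum.lof ℚ ℤ (fun i => gr k i) (4 * k) ⟨_, h2⟩, ?_⟩
    rw [map_add, map_add]
    have e : ∀ (i : ℤ) (z : gr k i), DirectSum.coeAddMonoidHom (gr k)
        (DirectSum.lof ℚ ℤ (fun i => gr k i) i z) = (z : HH) := fun i z =>
      DirectSum.coeLinearMap_lof (gr k) i z
    rw [e, e, e]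
    ext <;> simp

lemma gr_cases {k : ℕ} {i : ℤ} {u : HH} (hu : u ∈ gr k i) :
    Even i ∨ u = 0 := by
  obtain ⟨h1, h2, h3⟩ := hu
  by_cases h : Even i
  · exact Or.inl h
  · right
    have e0 : i ≠ 0 := by rintro rfl; exact h (by simp)
    have e1 : i ≠ 2 * k := by rintro rfl; exact h (even_two_mul _)
    have e2 : i ≠ 4 * k := by
      rintro rfl
      exact h ⟨2 * k, by ring⟩
    ext
    · exact h1 e0
    · exact (h2 e1).1
    · exact (h2 e1).2
    · exact h3 e2

/-- the CDGA -/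
def AA (k : ℕ) (hk : 1 ≤ k) : CDGA where
  C := HH
  gr := gr k
  internal := internal_gr hk
  one_mem := ⟨fun h => absurd rfl h, fun _ => ⟨rfl, rfl⟩, fun _ => rfl⟩
  mul_mem := by
    rintro i j u v ⟨h1, h2, h3⟩ ⟨g1, g2, g3⟩
    refine ⟨fun h => ?_, fun h => ⟨?_, ?_⟩, fun h => ?_⟩
    · simp only [HH.mul_a]
      by_cases hi : i = 0
      · rw [g1 (by omega), mul_zero]
      · rw [h1 hi, zero_mul]
    · simp only [HH.mul_x]
      have e1 : u.a * v.x = 0 := by
        by_cases hi : i = 0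
        · rw [(g2 (by omega)).1, mul_zero]
        · rw [h1 hi, zero_mul]
      have e2 : u.x * v.a = 0 := by
        by_cases hi : j = 0
        · rw [(h2 (by omega)).1, zero_mul]
        · rw [g1 hi, mul_zero]
      rw [e1, e2, add_zero]
    · simp only [HH.mul_y]
      have e1 : u.a * v.y = 0 := by
        by_cases hi : i = 0
        · rw [(g2 (by omega)).2, mul_zero]
        · rw [h1 hi, zero_mul]
      have e2 : u.y * v.a = 0 := by
        by_cases hi : j = 0
        · rw [(h2 (by omega)).2, zero_mul]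
        · rw [g1 hi, mul_zero]
      rw [e1, e2, add_zero]
    · simp only [HH.mul_w]
      have e1 : u.a * v.w = 0 := by
        by_cases hi : i = 0
        · rw [g3 (by omega), mul_zero]
        · rw [h1 hi, zero_mul]
      have e2 : u.w * v.a = 0 := by
        by_cases hi : j = 0
        · rw [h3 (by omega), zero_mul]
        · rw [g1 hi, mul_zero]
      have e3 : u.x * v.x = 0 := by
        by_cases hi : i = 2 * k
        · rw [(g2 (by omega)).1, mul_zero]
        · rw [(h2 hi).1, zero_mul]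
      have e4 : u.y * v.y = 0 := by
        by_cases hi : i = 2 * k
        · rw [(g2 (by omega)).2, mul_zero]
        · rw [(h2 hi).2, zero_mul]
      rw [e1, e2, e3, e4]
      norm_num
  comm := by
    intro i j u v hu hv
    rcases gr_cases hu with h | h
    · rw [sg_even (h.mul_right j), one_smul, mul_comm]
    · subst h
      simp
  d := 0
  d_mem := fun {i a} _ => (gr k (i + 1)).zero_mem
  d_d := fun _ => rfl
  leibniz := by
    intro i u v _
    simp

lemma isBd_iff {k : ℕ} {hk : 1 ≤ k} {i : ℤ} {u : HH} : (AA k hk).IsBd i u ↔ u = 0 := by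
  constructor
  · rintro ⟨c, -, hc⟩
    exact hc.symm
  · rintro rfl
    exact ⟨0, ((AA k hk).gr _).zero_mem, rfl⟩

/-- the top functional -/
def ep : HH →ₗ[ℚ] ℚ where
  toFun u := u.w
  map_add' _ _ := rfl
  map_smul' c u := HH.smul_w c u

lemma finite_HH : FiniteDimensional ℚ HH := by
  let e : HH →ₗ[ℚ] (Fin 4 → ℚ) :=
    { toFun := fun u => ![u.a, u.x, u.y, u.w]
      map_add' := fun u v => by
        funext i
        fin_cases i <;> rfl
      map_smul' := fun c u => by
        funext i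
        fin_cases i <;> simp }
  refine Module.Finite.of_injective e ?_
  intro u v huv
  ext
  · exact congrFun huv 0
  · exact congrFun huv 1
  · exact congrFun huv 2
  · exact congrFun huv 3

lemma finite_top : FiniteDimensional ℚ (⊤ : Submodule ℚ HH) := by
  have := finite_HH
  infer_instance

lemma core_conn {k : ℕ} (hk : 1 ≤ k) (u : HH) (hu : u ∈ gr k 0) : u - u.a • (1 : HH) = 0 := by
  obtain ⟨-, h2, h3⟩ := hu
  have h2' := h2 (by omega)
  have h3' := h3 (by omega)
  ext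
  · simp
  · simp [h2'.1]
  · simp [h2'.2]
  · simp [h3']

lemma core_nondeg {k : ℕ} (i : ℤ) (u : HH) (hu : u ∈ gr k i)
    (h : ∀ v : HH, v ∈ gr k (4 * k - i) → (u * v).w = 0) : u = 0 := by
  obtain ⟨h1, h2, h3⟩ := hu
  ext
  · by_cases hi : i = 0
    · subst hi
      have h4 := h ⟨0, 0, 0, 1⟩ ⟨fun _ => rfl, fun _ => ⟨rfl, rfl⟩, fun h => by
        exact absurd (by ring) h⟩
      simpa using h4
    · exact h1 hi
  · by_cases hi : i = 2 * k
    · subst hi
      have h4 := h ⟨0, 1, 0, 0⟩ ⟨fun _ => rfl, fun h => by exact absurd (by ring) h,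
        fun _ => rfl⟩
      simpa using h4
    · exact (h2 hi).1
  · by_cases hi : i = 2 * k
    · subst hi
      have h4 := h ⟨0, 0, 1, 0⟩ ⟨fun _ => rfl, fun h => by exact absurd (by ring) h,
        fun _ => rfl⟩
      simpa using h4
    · exact (h2 hi).2
  · by_cases hi : i = 4 * k
    · subst hi
      have h4 := h ⟨1, 0, 0, 0⟩ ⟨fun h => by exact absurd (by ring) h,
        fun _ => ⟨rfl, rfl⟩, fun _ => rfl⟩
      simpa using h4
    · exact h3 hi

lemma core_span {k : ℕ} (hk : 1 ≤ k) (u : HH) (hu : u ∈ gr k (2 * k)) :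
    u - (u.x • (⟨0, 1, 0, 0⟩ : HH) + u.y • (⟨0, 0, 1, 0⟩ : HH)) = 0 := by
  obtain ⟨h1, -, h3⟩ := hu
  have h1' := h1 (by omega)
  have h3' := h3 (by omega)
  ext
  · simp [h1']
  · simp
  · simp
  · simp [h3']

lemma core_aniso {k : ℕ} (hk : 1 ≤ k) (u : HH) (hu : u ∈ gr k (2 * k)) (h : u * u = 0) :
    u = 0 := by
  obtain ⟨h1, -, h3⟩ := hu
  have h1' := h1 (by omega)
  have h3' := h3 (by omega)
  have h4 := congrArg HH.w h
  simp only [HH.mul_w, HH.zero_w, h1', h3', zero_mul, zero_add] at h4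
  have h5 : u.x * u.x = 2 * (u.y * u.y) := by linarith
  have hy : u.y = 0 := by
    by_contra hy
    have h6 : (u.x / u.y) ^ 2 = 2 := by
      field_simp
      linarith
    have h7 : Irrational (Real.sqrt 2) := irrational_sqrt_two
    apply h7
    refine ⟨|u.x / u.y|, ?_⟩
    rw [eq_comm, Real.sqrt_eq_iff_mul_self_eq_of_pos]
    · rw [← Rat.cast_mul, abs_mul_abs_self, ← sq, h6]
      norm_num
    · have : u.x / u.y ≠ 0 := by
        intro h
        rw [h] at h6
        norm_num at h6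
      exact_mod_cast abs_pos.2 this
  have hx : u.x = 0 := by
    rw [hy, mul_zero, mul_zero] at h5
    exact mul_self_eq_zero.1 h5
  exact HH.ext h1' hx hy h3'

lemma core_top {k : ℕ} (hk : 1 ≤ k) (u v : HH) (hu : u ∈ gr k (4 * k)) (hv : v ∈ gr k (4 * k)) :
    ∃ s t : ℚ, (s ≠ 0 ∨ t ≠ 0) ∧ s • u + t • v = 0 := by
  obtain ⟨h1, h2, -⟩ := hu
  obtain ⟨g1, g2, -⟩ := hv
  have h1' := h1 (by omega)
  have h2' := h2 (by omega)
  have g1' := g1 (by omega)
  have g2' := g2 (by omega)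
  by_cases hv0 : v.w = 0
  · refine ⟨0, 1, Or.inr one_ne_zero, ?_⟩
    rw [zero_smul, one_smul, zero_add]
    exact HH.ext g1' g2'.1 g2'.2 hv0
  · refine ⟨v.w, -u.w, Or.inl hv0, ?_⟩
    ext
    · simp [h1', g1']
    · simp [h2'.1, g2'.1]
    · simp [h2'.2, g2'.2]
    · simp
      ring

lemma pd {k : ℕ} (hk : 1 ≤ k) : PoincareDuality (AA k hk) (4 * k) ep where
  finite := by
    refine ⟨⊤, finite_top, ?_⟩
    intro i a ha
    refine ⟨a, trivial, ha, ?_⟩
    rw [sub_self]
    exact (AA k hk).bd_zero i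
  connected := by
    refine ⟨fun u hu => ⟨HH.a u, isBd_iff.2 (core_conn hk u hu.1)⟩, fun h => ?_⟩
    have h1 : (1 : HH) = 0 := isBd_iff.1 h
    have h2 := congrArg HH.a h1
    simp at h2
  eps_d := fun _ => rfl
  eps_gr := fun i hi u hu => hu.2.2 hi
  nondeg := by
    intro i u hu h
    exact isBd_iff.2 (core_nondeg i u hu.1 fun v hv => h v ⟨hv, rfl⟩)

/-- the basis of the middle homology -/
def ee (s : Fin 1 ⊕ Fin 1) : HH := match s with
  | Sum.inl _ => ⟨0, 1, 0, 0⟩
  | Sum.inr _ => ⟨0, 0, 1, 0⟩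

/-- the coefficients of an element -/
def cc (u : HH) (s : Fin 1 ⊕ Fin 1) : ℚ := match s with
  | Sum.inl _ => u.x
  | Sum.inr _ => u.y

lemma ee_orth (s t : Fin 1 ⊕ Fin 1) (hst : s ≠ t) : (ee s * ee t).w = 0 := by
  rcases s with s | s <;> rcases t with t | t
  · exact absurd (congrArg Sum.inl (Subsingleton.elim s t)) hst
  · change ((⟨0, 1, 0, 0⟩ : HH) * ⟨0, 0, 1, 0⟩).w = 0
    simp
  · change ((⟨0, 0, 1, 0⟩ : HH) * ⟨0, 1, 0, 0⟩).w = 0
    simp
  · exact absurd (congrArg Sum.inr (Subsingleton.elim s t)) hst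

lemma ee_pos (s : Fin 1) : 0 < (ee (Sum.inl s) * ee (Sum.inl s)).w := by
  change 0 < ((⟨0, 1, 0, 0⟩ : HH) * ⟨0, 1, 0, 0⟩).w
  simp

lemma ee_neg (s : Fin 1) : (ee (Sum.inr s) * ee (Sum.inr s)).w < 0 := by
  change ((⟨0, 0, 1, 0⟩ : HH) * ⟨0, 0, 1, 0⟩).w < 0
  simp

lemma ee_span {k : ℕ} (hk : 1 ≤ k) (u : HH) (hu : u ∈ gr k (2 * k)) :
    u - ∑ s, cc u s • ee s = 0 := by
  rw [Fintype.sum_sum_type, Fin.sum_univ_one, Fin.sum_univ_one]
  exact core_span hk u hu

lemma ee_mem (k : ℕ) (s : Fin 1 ⊕ Fin 1) : ee s ∈ gr k (2 * k) := by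
  rcases s with s | s
  · exact ⟨fun _ => rfl, fun h => absurd rfl h, fun _ => rfl⟩
  · exact ⟨fun _ => rfl, fun h => absurd rfl h, fun _ => rfl⟩

lemma zs {k : ℕ} (hk : 1 ≤ k) : ZeroSignature (AA k hk) (4 * k) ep := by
  intro k' hk'
  have hkk : k' = k := by omega
  subst hkk
  exact ⟨1, ee, fun s => ⟨ee_mem k s, rfl⟩, ee_orth, ee_pos, ee_neg,
    fun u hu => ⟨cc u, isBd_iff.2 (ee_span hk u hu.1)⟩⟩

lemma good {k : ℕ} (hk : 1 ≤ k) : Good (AA k hk) k where
  one := (pd hk).connected.2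
  aniso := fun u hu h => isBd_iff.2 (core_aniso hk u hu.1 (isBd_iff.1 h))
  mid := by
    refine ⟨ee (Sum.inl 0), ⟨ee_mem k _, rfl⟩, ?_⟩
    intro h
    have h1 : ee (Sum.inl 0) = 0 := isBd_iff.1 h
    have h2 := congrArg HH.x h1
    exact one_ne_zero h2
  top := by
    intro u v hu hv
    obtain ⟨s, t, hst, h⟩ := core_top hk u v hu.1 hv.1
    exact ⟨s, t, hst, isBd_iff.2 h⟩

/-- **Disproof.**  For every `k ≥ 1` there is a non-negatively graded CDGA whose homology
satisfies Poincaré duality in dimension `4 k` and has signature zero, and which is not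
quasi-isomorphic to any semi-trivial mapping cone `Q ⊕_Ψ s s^{-n} # Q`, `n = 4 k + 1`. -/
theorem result (k : ℕ) (hk : 1 ≤ k) : ∃ (A : CDGA) (ε : A.C →ₗ[ℚ] ℚ), A.Nonneg ∧
    PoincareDuality A (4 * k) ε ∧ ZeroSignature A (4 * k) ε ∧
    ∀ T : CDGA, IsSemiTrivialCone (4 * k + 1) T → ¬ QuasiIsomorphic A T := by
  refine ⟨AA k hk, ep, ?_, pd hk, zs hk, ?_⟩
  · intro i hi
    rw [eq_bot_iff]
    rintro u ⟨h1, h2, h3⟩
    exact HH.ext (h1 (by omega)) (h2 (by omega)).1 (h2 (by omega)).2 (h3 (by omega))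
  · intro T hcone hq
    exact not_good hcone ((good_iff hq).1 (good hk))

end Pool.Agent.Results.MP_43ef35_gt.AnisotropicForm
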